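import Pool.Agent.R598.CI.Fin

set_option autoImplicit false

namespace Pool.Agent.Results.MP_4e922d_lc.UncountableNotSeparable

open Pool.Agent.W868 Pool.Agent.R598.CI

/-- There is a countable transitive model of ZF in which the set of the real numbers is
equipotent to a subset of each uncountable compact metrizable space, while some compact metrizable
space is not separable. -/
theorem result : ∃ M : Set ZFSet.{0}, M.Countable ∧ IsZF M ∧ MCUnc M ∧ ¬ MCSep M := exists_model

end Pool.Agent.Results.MP_4e922d_lc.UncountableNotSeparable
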